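import Mathlib

set_option autoImplicit false

/-!
# The closest a signed product of factors `(1 - 1/s)` can come to one

Let `s 0 ≤ s 1 ≤ ...` be integers `≥ 2`, and let `A i / B i` be the partial products of
`(1 - 1 / s i) ^ (± 1)`, written with the obvious numerators and denominators.  If no partial
product is one, then the `k`-th one is at least as far from one (on a logarithmic scale) as
`1 - 1 / (s 0) ^ (2 ^ k)`.
-/

namespace Pool.Agent.Helper69.TR

lemma key_log (r g : ℝ) (hr : 1 < r) (hg : 1 < g) :
    2 * r * Real.log r - (2 * r - 2) * Real.log (r - 1) ≤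
      2 * r * Real.log g - (2 * r - 2) * Real.log (g - 1) := by
  have hr0 : (0 : ℝ) < r := by linarith
  have hr1 : (0 : ℝ) < r - 1 := by linarith
  have hg0 : (0 : ℝ) < g := by linarith
  have hg1 : (0 : ℝ) < g - 1 := by linarith
  have hc : ConcaveOn ℝ (Set.Ioi 0) Real.log := strictConcaveOn_log_Ioi.concaveOn
  have hx : (g - 1) / (r - 1) ∈ Set.Ioi (0 : ℝ) := Set.mem_Ioi.2 (div_pos hg1 hr1)
  have hy : (1 : ℝ) ∈ Set.Ioi (0 : ℝ) := Set.mem_Ioi.2 one_pos
  have ha : (0 : ℝ) ≤ (r - 1) / r := div_nonneg hr1.le hr0.le
  have hb : (0 : ℝ) ≤ 1 / r := by positivity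
  have hab : (r - 1) / r + 1 / r = 1 := by
    field_simp
    ring
  have h := hc.2 hx hy ha hb hab
  simp only [smul_eq_mul, Real.log_one, mul_zero, add_zero, mul_one] at h
  have e : (r - 1) / r * ((g - 1) / (r - 1)) + 1 / r = g / r := by
    field_simp
    ring
  rw [e, Real.log_div hg1.ne' hr1.ne', Real.log_div hg0.ne' hr0.ne'] at h
  have h2 : (r - 1) * (Real.log (g - 1) - Real.log (r - 1)) ≤ r * (Real.log g - Real.log r) := by
    have h3 := mul_le_mul_of_nonneg_left h hr0.le
    have e2 : r * ((r - 1) / r * (Real.log (g - 1) - Real.log (r - 1)))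
        = (r - 1) * (Real.log (g - 1) - Real.log (r - 1)) := by
      field_simp
    rw [e2] at h3
    exact h3
  nlinarith

/-- The abstract gap theorem. -/
theorem gap (s A B : ℕ → ℕ) (k : ℕ) (hs : ∀ i ≤ k, 2 ≤ s i) (hmono : ∀ i < k, s i ≤ s (i + 1))
    (h0 : A 0 * B 0 = s 0 * (s 0 - 1))
    (hprod : ∀ i < k, A (i + 1) * B (i + 1) = A i * B i * (s (i + 1) * (s (i + 1) - 1)))
    (hstep : ∀ i < k, |(Real.log (A (i + 1)) - Real.log (B (i + 1))) -
      (Real.log (A i) - Real.log (B i))| ≤ Real.log (s (i + 1)) - Real.log ((s (i + 1) : ℝ) - 1))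
    (hne : ∀ i ≤ k, A i ≠ B i) :
    ∀ n ≤ k, Real.log ((s 0 : ℝ) ^ (2 ^ n)) - Real.log ((s 0 : ℝ) ^ (2 ^ n) - 1) ≤
      |Real.log (A n) - Real.log (B n)| := by
  -- positivity of the products
  have hpos : ∀ i ≤ k, 0 < A i * B i := by
    intro i
    induction i with
    | zero =>
      intro _
      rw [h0]
      have := hs 0 (Nat.zero_le _)
      exact Nat.mul_pos (by omega) (by omega)
    | succ i ih =>
      intro hi
      rw [hprod i (by omega)]
      have := hs (i + 1) hi
      exact Nat.mul_pos (ih (by omega)) (Nat.mul_pos (by omega) (by omega))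
  -- real form of the numbers
  set G : ℕ → ℝ := fun n => (s 0 : ℝ) ^ (2 ^ n) with hG
  have hs0 : (2 : ℝ) ≤ s 0 := by exact_mod_cast hs 0 (Nat.zero_le _)
  have hG2 : ∀ n, 2 ≤ G n := by
    intro n
    calc (2 : ℝ) ≤ s 0 := hs0
      _ = (s 0 : ℝ) ^ 1 := (pow_one _).symm
      _ ≤ (s 0 : ℝ) ^ (2 ^ n) := pow_le_pow_right₀ (by linarith) Nat.one_le_two_pow
  have hGs : ∀ n, G (n + 1) = G n ^ 2 := by
    intro n
    simp only [hG]
    rw [pow_succ 2 n, pow_mul]
  set lam : ℕ → ℝ := fun n => Real.log (G n) - Real.log (G n - 1) with hlam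
  set u : ℕ → ℝ := fun i => Real.log (s i) - Real.log ((s i : ℝ) - 1) with hu
  set v : ℕ → ℝ := fun i => Real.log (G i + 1) - Real.log (G i) with hv
  set x : ℕ → ℝ := fun i => Real.log (A i) - Real.log (B i) with hx
  have hlv : ∀ n, lam n - lam (n + 1) = v n := by
    intro n
    have h2 := hG2 n
    have e1 : Real.log (G (n + 1)) = 2 * Real.log (G n) := by
      rw [hGs, Real.log_pow]; norm_num
    have e2 : Real.log (G (n + 1) - 1) = Real.log (G n - 1) + Real.log (G n + 1) := by
      rw [hGs, ← Real.log_mul (by linarith) (by linarith)]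
      congr 1
      ring
    simp only [hlam, hv]
    rw [e1, e2]
    ring
  -- from the product to the gap
  have fin : ∀ n ≤ k, ((A n * B n : ℕ) : ℝ) < G n * (G n - 1) + 1 → lam n ≤ |x n| := by
    intro n hn hlt
    have hp := hpos n hn
    have hA : 0 < A n := Nat.pos_of_mul_pos_right hp |> fun h => by
      rcases Nat.eq_zero_or_pos (A n) with h1 | h1
      · rw [h1, zero_mul] at hp; exact absurd hp (lt_irrefl _)
      · exact h1
    have hB : 0 < B n := by
      rcases Nat.eq_zero_or_pos (B n) with h1 | h1
      · rw [h1, mul_zero] at hp; exact absurd hp (lt_irrefl _)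
      · exact h1
    -- general statement for a < b
    have gen : ∀ a b : ℕ, 0 < a → a < b → ((a * b : ℕ) : ℝ) < G n * (G n - 1) + 1 →
        lam n ≤ Real.log b - Real.log a := by
      intro a b ha hab hlt
      have h2 := hG2 n
      have ha' : (0 : ℝ) < a := by exact_mod_cast ha
      have hb' : (a : ℝ) + 1 ≤ b := by exact_mod_cast hab
      have hle : (a : ℝ) ≤ G n - 1 := by
        -- G n is a natural number
        have hGn : G n = ((s 0 ^ (2 ^ n) : ℕ) : ℝ) := by
          simp only [hG]; push_cast; rfl
        by_contra hcon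
        push Not at hcon
        have h3 : ((s 0 ^ (2 ^ n) : ℕ) : ℝ) < a + 1 := by
          rw [← hGn]; linarith
        have h4 : s 0 ^ (2 ^ n) ≤ a := by
          have : s 0 ^ (2 ^ n) < a + 1 := by exact_mod_cast h3
          omega
        have h5 : G n ≤ a := by rw [hGn]; exact_mod_cast h4
        push_cast at hlt
        nlinarith
      have h6 : Real.log ((a : ℝ) + 1) ≤ Real.log b := Real.log_le_log (by linarith) hb'
      have h7 : lam n ≤ Real.log ((a : ℝ) + 1) - Real.log a := by
        simp only [hlam]
        rw [← Real.log_div (by linarith) (by linarith),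
          ← Real.log_div (by linarith) (by linarith)]
        apply Real.log_le_log (div_pos (by linarith) (by linarith))
        rw [div_le_div_iff₀ (by linarith) ha']
        nlinarith
      linarith
    rcases lt_or_gt_of_ne (hne n hn) with h | h
    · have := gen (A n) (B n) hA h hlt
      simp only [hx]
      rw [abs_sub_comm]
      exact this.trans (le_abs_self _)
    · have := gen (B n) (A n) hB h (by rwa [mul_comm])
      simp only [hx]
      exact this.trans (le_abs_self _)
  -- telescoping
  have htel : ∀ L j, j ≤ L → L ≤ k → |x j| ≤ |x L| + ∑ i ∈ Finset.Ico j L, u (i + 1) := by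
    intro L j hj
    induction L, hj using Nat.le_induction with
    | base => intro _; simp
    | succ L hjL ih =>
      intro hL
      have h1 := ih (by omega)
      have h2 : |x (L + 1) - x L| ≤ u (L + 1) := hstep L (by omega)
      have h3 : |x L| ≤ |x (L + 1)| + |x (L + 1) - x L| := by
        have := abs_sub_abs_le_abs_sub (x L) (x (L + 1))
        rw [abs_sub_comm (x L) (x (L + 1))] at this
        linarith
      rw [Finset.sum_Ico_succ_top hjL]
      linarith
  have hltel : ∀ L j, j ≤ L → lam j - lam L = ∑ i ∈ Finset.Ico j L, v i := by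
    intro L j hj
    induction L, hj using Nat.le_induction with
    | base => simp
    | succ L hjL ih =>
      rw [Finset.sum_Ico_succ_top hjL, ← ih, ← hlv L]
      ring
  -- the induction
  intro n
  induction n using Nat.strong_induction_on with
  | _ K IH =>
    intro hK
    change lam K ≤ |x K|
    rcases Nat.eq_zero_or_pos K with h00 | hKpos
    · subst h00
      apply fin 0 (Nat.zero_le _)
      rw [h0]
      have h1 : 1 ≤ s 0 := by have := hs 0 (Nat.zero_le _); omega
      simp only [hG]
      push_cast [Nat.cast_sub h1]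
      norm_num
    by_contra hcon
    push Not at hcon
    -- the tail sums are positive
    have hS : ∀ j < K, 0 < ∑ i ∈ Finset.Ico j K, (u (i + 1) - v i) := by
      intro j hj
      have h1 : lam j ≤ |x j| := IH j hj (by omega)
      have h2 := htel K j hj.le hK
      have h3 := hltel K j hj.le
      rw [Finset.sum_sub_distrib]
      linarith
    have hZ : ∀ d j, j + d = K → (2 * (s (j + 1) : ℝ) - 1) *
        ∑ i ∈ Finset.Ico j K, (u (i + 1) - v i) ≤
        ∑ i ∈ Finset.Ico j K, (2 * (s (i + 1) : ℝ) - 1) * (u (i + 1) - v i) := by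
      intro d
      induction d with
      | zero => intro j hj; simp at hj; subst hj; simp
      | succ d ih =>
        intro j hj
        have h1 := ih (j + 1) (by omega)
        rw [Finset.sum_eq_sum_Ico_succ_bot (by omega : j < K),
          Finset.sum_eq_sum_Ico_succ_bot (by omega : j < K)]
        rcases Nat.eq_or_lt_of_le (show j + 1 ≤ K by omega) with h | h
        · rw [h]; simp
        · have h2 := hS (j + 1) h
          have h3 : (s (j + 1) : ℝ) ≤ s (j + 1 + 1) := by
            exact_mod_cast hmono (j + 1) (by omega)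
          nlinarith
    have hZ0 := hZ K 0 (by omega)
    have hS0 := hS 0 hKpos
    have hs1 : (2 : ℝ) ≤ s (0 + 1) := by exact_mod_cast hs (0 + 1) (by omega)
    -- comparison of the products
    have hcmp : ∑ i ∈ Finset.Ico 0 K, (Real.log (s (i + 1)) + Real.log ((s (i + 1) : ℝ) - 1)) <
        ∑ i ∈ Finset.Ico 0 K, (Real.log (G i + 1) + Real.log (G i)) := by
      have h1 : ∑ i ∈ Finset.Ico 0 K, ((Real.log (s (i + 1)) + Real.log ((s (i + 1) : ℝ) - 1)) +
          (2 * (s (i + 1) : ℝ) - 1) * (u (i + 1) - v i)) ≤
          ∑ i ∈ Finset.Ico 0 K, (Real.log (G i + 1) + Real.log (G i)) := by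
        apply Finset.sum_le_sum
        intro i hi
        rw [Finset.mem_Ico] at hi
        have hsi : (2 : ℝ) ≤ s (i + 1) := by exact_mod_cast hs (i + 1) (by omega)
        have hGi := hG2 i
        have hk := key_log (s (i + 1)) (G i + 1) (by linarith) (by linarith)
        have e : G i + 1 - 1 = G i := by ring
        rw [e] at hk
        simp only [hu, hv]
        nlinarith
      rw [Finset.sum_add_distrib] at h1
      nlinarith
    -- the product of the numerator and the denominator
    have hAB : ∀ n ≤ k, Real.log ((A n * B n : ℕ) : ℝ) =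
        Real.log ((A 0 * B 0 : ℕ) : ℝ) +
        ∑ i ∈ Finset.Ico 0 n, (Real.log (s (i + 1)) + Real.log ((s (i + 1) : ℝ) - 1)) := by
      intro n
      induction n with
      | zero => intro _; simp
      | succ n ih =>
        intro hn
        have h1 := ih (by omega)
        have h2 : 2 ≤ s (n + 1) := hs (n + 1) hn
        have h3 : (2 : ℝ) ≤ s (n + 1) := by exact_mod_cast h2
        have h4 : (0 : ℝ) < ((A n * B n : ℕ) : ℝ) := by exact_mod_cast hpos n (by omega)
        have h5 : (((A n * B n) * (s (n + 1) * (s (n + 1) - 1)) : ℕ) : ℝ) =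
            ((A n * B n : ℕ) : ℝ) * ((s (n + 1) : ℝ) * ((s (n + 1) : ℝ) - 1)) := by
          rw [Nat.cast_mul, Nat.cast_mul (s (n + 1)), Nat.cast_sub (by omega)]
          norm_num
        rw [Finset.sum_Ico_succ_top (Nat.zero_le _), hprod n (by omega), h5,
          Real.log_mul h4.ne' (by nlinarith), Real.log_mul (by linarith) (by linarith), h1]
        ring
    have hGG : ∀ n, Real.log (G n) + Real.log (G n - 1) =
        Real.log (G 0) + Real.log (G 0 - 1) +
        ∑ i ∈ Finset.Ico 0 n, (Real.log (G i + 1) + Real.log (G i)) := by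
      intro n
      induction n with
      | zero => simp
      | succ n ih =>
        have h2 := hG2 n
        have e1 : Real.log (G (n + 1)) = 2 * Real.log (G n) := by
          rw [hGs, Real.log_pow]; norm_num
        have e2 : Real.log (G (n + 1) - 1) = Real.log (G n - 1) + Real.log (G n + 1) := by
          rw [hGs, ← Real.log_mul (by linarith) (by linarith)]
          congr 1
          ring
        rw [Finset.sum_Ico_succ_top (Nat.zero_le _), e1, e2]
        linarith
    have h00 : Real.log ((A 0 * B 0 : ℕ) : ℝ) = Real.log (G 0) + Real.log (G 0 - 1) := by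
      have h1 : 2 ≤ s 0 := hs 0 (Nat.zero_le _)
      have h5 : ((s 0 * (s 0 - 1) : ℕ) : ℝ) = (s 0 : ℝ) * ((s 0 : ℝ) - 1) := by
        rw [Nat.cast_mul, Nat.cast_sub (by omega)]
        norm_num
      rw [h0, h5, Real.log_mul (by linarith) (by linarith)]
      simp [hG]
    have hlog : Real.log ((A K * B K : ℕ) : ℝ) < Real.log (G K * (G K - 1)) := by
      have h2 := hG2 K
      rw [hAB K hK, Real.log_mul (by linarith) (by linarith), hGG K, h00]
      linarith
    have h2 := hG2 K
    have h4 : (0 : ℝ) < ((A K * B K : ℕ) : ℝ) := by exact_mod_cast hpos K hK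
    have h6 := (Real.log_lt_log_iff h4 (by nlinarith)).1 hlog
    have h7 := fin K hK (by linarith)
    linarith

end Pool.Agent.Helper69.TR
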