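import Mathlib

set_option autoImplicit false

/-!
# The starts `2 ^ (2 ^ j) - 1`, `j ≤ 5`
-/

open scoped Nat

namespace Pool.Agent.Helper69.TR

lemma fermat_aux (j : ℕ) (hj : ∀ i < j, (2 ^ (2 ^ i) + 1).Prime) :
    φ (2 ^ (2 ^ j) - 1) = 2 ^ (2 ^ j - 1) ∧ (2 ^ (2 ^ j) - 1).primeFactors.card = j := by
  induction j with
  | zero => simp
  | succ j ih =>
    obtain ⟨h1, h2⟩ := ih (fun i hi => hj i (by omega))
    have hp := hj j (by omega)
    set X := 2 ^ (2 ^ j) with hX
    have hX2 : 2 ≤ X := by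
      calc 2 = 2 ^ 1 := rfl
        _ ≤ 2 ^ (2 ^ j) := Nat.pow_le_pow_right (by norm_num) Nat.one_le_two_pow
    have hfac : 2 ^ (2 ^ (j + 1)) - 1 = (X - 1) * (X + 1) := by
      have : 2 ^ (2 ^ (j + 1)) = X * X := by
        rw [hX, ← pow_add]
        congr 1
        rw [pow_succ]
        ring
      rw [this, mul_comm (X - 1), ← Nat.mul_self_sub_mul_self_eq]
    have hcop : (X - 1).Coprime (X + 1) := by
      have hnd : ¬ (X + 1) ∣ (X - 1) := by
        intro h
        have := Nat.le_of_dvd (by omega) h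
        omega
      exact ((Nat.Prime.coprime_iff_not_dvd hp).2 hnd).symm
    rw [hfac]
    constructor
    · rw [Nat.totient_mul hcop, h1, Nat.totient_prime hp, Nat.add_sub_cancel, hX, ← pow_add]
      congr 1
      have : 1 ≤ 2 ^ j := Nat.one_le_two_pow
      rw [pow_succ]
      omega
    · rw [Nat.primeFactors_mul (by omega) (by omega), Finset.card_union_of_disjoint
        hcop.disjoint_primeFactors, h2, hp.primeFactors, Finset.card_singleton]

lemma fermat (j : ℕ) (hj : j ≤ 5) : φ (2 ^ (2 ^ j) - 1) = φ (2 ^ (2 ^ j) - 1 + 1) ∧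
    ((2 ^ (2 ^ j) - 1) * (2 ^ (2 ^ j) - 1 + 1)).primeFactors.card = j + 1 := by
  have hpr : ∀ i < j, (2 ^ (2 ^ i) + 1).Prime := by
    intro i hi
    have hi5 : i < 5 := by omega
    interval_cases i <;> norm_num
  obtain ⟨h1, h2⟩ := fermat_aux j hpr
  have h3 : 2 ^ (2 ^ j) - 1 + 1 = 2 ^ (2 ^ j) := Nat.sub_add_cancel Nat.one_le_two_pow
  have h4 : 0 < 2 ^ j := Nat.two_pow_pos j
  rw [h3]
  constructor
  · rw [h1, Nat.totient_prime_pow Nat.prime_two h4]
    norm_num
  · have h5 : 2 ≤ 2 ^ (2 ^ j) := by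
      calc 2 = 2 ^ 1 := rfl
        _ ≤ 2 ^ (2 ^ j) := Nat.pow_le_pow_right (by norm_num) Nat.one_le_two_pow
    have hcop : (2 ^ (2 ^ j) - 1).Coprime (2 ^ (2 ^ j)) := by
      have : (2 ^ (2 ^ j) - 1).Coprime (2 ^ (2 ^ j) - 1 + 1) := by simp
      rwa [h3] at this
    rw [Nat.primeFactors_mul (by omega) (by omega), Finset.card_union_of_disjoint
      hcop.disjoint_primeFactors, h2, Nat.primeFactors_prime_pow h4.ne' Nat.prime_two,
      Finset.card_singleton]

lemma split (j : ℕ) : 2 ^ (2 ^ (j + 1)) - 1 = (2 ^ (2 ^ j) - 1) * (2 ^ (2 ^ j) + 1) ∧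
    (2 ^ (2 ^ j) - 1).Coprime (2 ^ (2 ^ j) + 1) ∧ 2 ≤ 2 ^ (2 ^ j) := by
  set X := 2 ^ (2 ^ j) with hX
  have hX2 : 2 ≤ X := by
    calc 2 = 2 ^ 1 := rfl
      _ ≤ 2 ^ (2 ^ j) := Nat.pow_le_pow_right (by norm_num) Nat.one_le_two_pow
  have heven : Even X := (Nat.even_pow.2 ⟨even_two, (Nat.two_pow_pos j).ne'⟩)
  refine ⟨?_, ?_, hX2⟩
  · have : 2 ^ (2 ^ (j + 1)) = X * X := by
      rw [hX, ← pow_add]
      congr 1
      rw [pow_succ]
      ring
    rw [this, mul_comm (X - 1), ← Nat.mul_self_sub_mul_self_eq]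
  · have e : X + 1 = (X - 1) + 2 := by omega
    rw [e, Nat.coprime_self_add_right, Nat.coprime_two_right]
    exact Nat.Even.sub_odd (by omega) heven odd_one

lemma card_step (j c : ℕ) (hc : c ≤ (2 ^ (2 ^ j) + 1).primeFactors.card) :
    (2 ^ (2 ^ j) - 1).primeFactors.card + c ≤ (2 ^ (2 ^ (j + 1)) - 1).primeFactors.card := by
  obtain ⟨h1, h2, h3⟩ := split j
  rw [h1, Nat.primeFactors_mul (by omega) (by omega), Finset.card_union_of_disjoint
    h2.disjoint_primeFactors]
  omega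

lemma card_ge (j : ℕ) (hj : 6 ≤ j) : j + 1 ≤ (2 ^ (2 ^ j) - 1).primeFactors.card := by
  induction j, hj using Nat.le_induction with
  | base =>
    have hpr : ∀ i < 5, (2 ^ (2 ^ i) + 1).Prime := by
      intro i hi
      interval_cases i <;> norm_num
    obtain ⟨-, h2⟩ := fermat_aux 5 hpr
    have h3 : 2 ≤ (2 ^ (2 ^ 5) + 1).primeFactors.card := by
      have hsub : ({641, 6700417} : Finset ℕ) ⊆ (2 ^ (2 ^ 5) + 1).primeFactors := by
        intro q hq
        rw [Finset.mem_insert, Finset.mem_singleton] at hq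
        rw [Nat.mem_primeFactors]
        rcases hq with rfl | rfl
        · exact ⟨by norm_num, by norm_num, by norm_num⟩
        · exact ⟨by norm_num, by norm_num, by norm_num⟩
      have := Finset.card_le_card hsub
      rwa [Finset.card_pair (by norm_num)] at this
    have h7 := card_step 5 2 h3
    rw [h2] at h7
    exact h7
  | succ j hj ih =>
    have h3 : 1 ≤ (2 ^ (2 ^ j) + 1).primeFactors.card := by
      rw [Nat.one_le_iff_ne_zero, ← Nat.pos_iff_ne_zero, Finset.card_pos,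
        Nat.nonempty_primeFactors]
      have := (split j).2.2
      omega
    have := card_step j 1 h3
    omega

/-- The number of primes dividing `n (n+1)` when `n = 2 ^ (2 ^ j) - 1`. -/
lemma eq_case (j : ℕ) (h : ((2 ^ (2 ^ j) - 1) * (2 ^ (2 ^ j))).primeFactors.card - 1 = j) :
    j ≤ 5 := by
  by_contra hcon
  have h1 := card_ge j (by omega)
  have h5 := (split j).2.2
  have h4 : 0 < 2 ^ j := Nat.two_pow_pos j
  have hcop : (2 ^ (2 ^ j) - 1).Coprime (2 ^ (2 ^ j)) := by
    have : (2 ^ (2 ^ j) - 1).Coprime (2 ^ (2 ^ j) - 1 + 1) := by simp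
    rwa [Nat.sub_add_cancel Nat.one_le_two_pow] at this
  rw [Nat.primeFactors_mul (by omega) (by omega), Finset.card_union_of_disjoint
      hcop.disjoint_primeFactors, Nat.primeFactors_prime_pow h4.ne' Nat.prime_two,
      Finset.card_singleton] at h
  omega

end Pool.Agent.Helper69.TR
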