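import Pool.Agent.Helper69.TR.Base

set_option autoImplicit false

/-!
# Equal totients and the number of prime factors

If `φ m = φ (m + h)` then `m + h ≤ h * p ^ (2 ^ (R - 1))`, where `R` is the number of primes
dividing exactly one of `m`, `m + h`, and `p` is any of these primes.
-/

open scoped Nat

namespace Pool.Agent.Helper69.TR

lemma exists_enum (D : Finset ℕ) : ∃ s : ℕ → ℕ, (∀ i j, i < j → j < D.card → s i < s j) ∧
    (Finset.range D.card).image s = D := by
  induction D using Finset.induction_on_max with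
  | empty => exact ⟨fun _ => 0, by simp, by simp⟩
  | insert a D ha ih =>
    obtain ⟨s, h1, h2⟩ := ih
    have hna : a ∉ D := fun h => lt_irrefl _ (ha a h)
    have hmem : ∀ i < D.card, s i ∈ D := by
      intro i hi
      rw [← h2]
      exact Finset.mem_image_of_mem _ (Finset.mem_range.2 hi)
    refine ⟨fun i => if i < D.card then s i else a, ?_, ?_⟩
    · intro i j hij hj
      rw [Finset.card_insert_of_notMem hna] at hj
      have hi : i < D.card := by omega
      simp only [hi, if_true]
      by_cases hj2 : j < D.card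
      · simp only [hj2, if_true]
        exact h1 i j hij hj2
      · simp only [hj2, if_false]
        exact ha _ (hmem i hi)
    · rw [Finset.card_insert_of_notMem hna, Finset.range_add_one, Finset.image_insert]
      simp only [lt_irrefl, if_false]
      congr 1
      rw [← h2]
      rw [h2]
      conv_rhs => rw [← h2]
      apply Finset.image_congr
      intro i hi
      have : i < D.card := by simpa using hi
      simp [this]

/-- The numerator of the factor belonging to the prime `q`. -/
def an (m q : ℕ) : ℕ := if q ∣ m then q - 1 else q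

/-- The denominator of the factor belonging to the prime `q`. -/
def bn (m q : ℕ) : ℕ := if q ∣ m then q else q - 1

lemma an_mul_bn (m q : ℕ) : an m q * bn m q = q * (q - 1) := by
  unfold an bn
  split_ifs
  · rw [mul_comm]
  · rfl

lemma an_pos (m q : ℕ) (hq : 2 ≤ q) : 0 < an m q := by
  unfold an
  split_ifs <;> omega

lemma bn_pos (m q : ℕ) (hq : 2 ≤ q) : 0 < bn m q := by
  unfold bn
  split_ifs <;> omega

lemma an_le (m q : ℕ) : an m q ≤ q := by
  unfold an
  split_ifs <;> omega

lemma bn_le (m q : ℕ) : bn m q ≤ q := by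
  unfold bn
  split_ifs <;> omega

lemma abs_log (m q : ℕ) (hq : 2 ≤ q) : |Real.log (an m q) - Real.log (bn m q)| ≤
    Real.log q - Real.log ((q : ℝ) - 1) := by
  have hq' : (2 : ℝ) ≤ q := by exact_mod_cast hq
  have h1 : Real.log ((q : ℝ) - 1) ≤ Real.log q := Real.log_le_log (by linarith) (by linarith)
  have h2 : ((q - 1 : ℕ) : ℝ) = (q : ℝ) - 1 := by
    rw [Nat.cast_sub (by omega)]
    norm_num
  unfold an bn
  split_ifs
  · rw [h2, abs_sub_comm, abs_of_nonneg (by linarith)]
  · rw [h2, abs_of_nonneg (by linarith)]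

/-- The equation satisfied by the primes dividing exactly one of two numbers with the same
totient. -/
lemma totient_eq (m n : ℕ) (hm : 1 ≤ m) (heq : φ m = φ n) :
    m * ∏ q ∈ symmDiff m.primeFactors n.primeFactors, an m q =
      n * ∏ q ∈ symmDiff m.primeFactors n.primeFactors, bn m q := by
  set X := m.primeFactors with hX
  set Y := n.primeFactors with hY
  have e1 := Nat.totient_mul_prod_primeFactors m
  have e2 := Nat.totient_mul_prod_primeFactors n
  rw [← hX] at e1
  rw [← hY, ← heq] at e2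
  have hI1 : 0 < ∏ q ∈ X ∩ Y, q := Finset.prod_pos fun q hq =>
    (Nat.prime_of_mem_primeFactors (Finset.mem_inter.1 hq).1).pos
  have hI2 : 0 < ∏ q ∈ X ∩ Y, (q - 1) := Finset.prod_pos fun q hq => by
    have := (Nat.prime_of_mem_primeFactors (Finset.mem_inter.1 hq).1).two_le
    omega
  have sA : ∏ q ∈ symmDiff X Y, an m q = (∏ q ∈ X \ Y, (q - 1)) * ∏ q ∈ Y \ X, q := by
    rw [symmDiff_def, Finset.sup_eq_union, Finset.prod_union (by
      rw [Finset.disjoint_left]
      intro q hq1 hq2
      simp only [Finset.mem_sdiff] at hq1 hq2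
      exact hq2.2 hq1.1)]
    congr 1
    · apply Finset.prod_congr rfl
      intro q hq
      have : q ∣ m := Nat.dvd_of_mem_primeFactors (Finset.mem_sdiff.1 hq).1
      simp [an, this]
    · apply Finset.prod_congr rfl
      intro q hq
      have hq2 := Finset.mem_sdiff.1 hq
      have : ¬ q ∣ m := fun h => hq2.2 (Nat.mem_primeFactors.2
        ⟨Nat.prime_of_mem_primeFactors hq2.1, h, by omega⟩)
      simp [an, this]
  have sB : ∏ q ∈ symmDiff X Y, bn m q = (∏ q ∈ X \ Y, q) * ∏ q ∈ Y \ X, (q - 1) := by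
    rw [symmDiff_def, Finset.sup_eq_union, Finset.prod_union (by
      rw [Finset.disjoint_left]
      intro q hq1 hq2
      simp only [Finset.mem_sdiff] at hq1 hq2
      exact hq2.2 hq1.1)]
    congr 1
    · apply Finset.prod_congr rfl
      intro q hq
      have : q ∣ m := Nat.dvd_of_mem_primeFactors (Finset.mem_sdiff.1 hq).1
      simp [bn, this]
    · apply Finset.prod_congr rfl
      intro q hq
      have hq2 := Finset.mem_sdiff.1 hq
      have : ¬ q ∣ m := fun h => hq2.2 (Nat.mem_primeFactors.2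
        ⟨Nat.prime_of_mem_primeFactors hq2.1, h, by omega⟩)
      simp [bn, this]
  have x1 : (∏ q ∈ X ∩ Y, q) * ∏ q ∈ X \ Y, q = ∏ q ∈ X, q :=
    Finset.prod_inter_mul_prod_sdiff X Y _
  have x2 : (∏ q ∈ X ∩ Y, (q - 1)) * ∏ q ∈ X \ Y, (q - 1) = ∏ q ∈ X, (q - 1) :=
    Finset.prod_inter_mul_prod_sdiff X Y _
  have y1 : (∏ q ∈ X ∩ Y, q) * ∏ q ∈ Y \ X, q = ∏ q ∈ Y, q := by
    rw [Finset.inter_comm]
    exact Finset.prod_inter_mul_prod_sdiff Y X _
  have y2 : (∏ q ∈ X ∩ Y, (q - 1)) * ∏ q ∈ Y \ X, (q - 1) = ∏ q ∈ Y, (q - 1) := by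
    rw [Finset.inter_comm]
    exact Finset.prod_inter_mul_prod_sdiff Y X _
  rw [sA, sB]
  apply Nat.eq_of_mul_eq_mul_left (Nat.mul_pos hI1 hI2)
  calc (∏ q ∈ X ∩ Y, q) * (∏ q ∈ X ∩ Y, (q - 1)) *
        (m * ((∏ q ∈ X \ Y, (q - 1)) * ∏ q ∈ Y \ X, q))
      = (m * ((∏ q ∈ X ∩ Y, (q - 1)) * ∏ q ∈ X \ Y, (q - 1))) *
        ((∏ q ∈ X ∩ Y, q) * ∏ q ∈ Y \ X, q) := by ring
    _ = (φ m * ∏ q ∈ X, q) * ∏ q ∈ Y, q := by rw [x2, y1, e1]
    _ = (φ m * ∏ q ∈ Y, q) * ∏ q ∈ X, q := by ring
    _ = (n * ((∏ q ∈ X ∩ Y, (q - 1)) * ∏ q ∈ Y \ X, (q - 1))) *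
        ((∏ q ∈ X ∩ Y, q) * ∏ q ∈ X \ Y, q) := by rw [e2, y2, x1]
    _ = _ := by ring

/-- **Main theorem.** -/
theorem main (m h : ℕ) (hm : 1 ≤ m) (hh : 1 ≤ h) (heq : φ m = φ (m + h)) :
    (symmDiff m.primeFactors (m + h).primeFactors).Nonempty ∧
    ∀ p ∈ symmDiff m.primeFactors (m + h).primeFactors,
      m + h ≤ h * p ^ (2 ^ ((symmDiff m.primeFactors (m + h).primeFactors).card - 1)) := by
  have hE := totient_eq m (m + h) hm heq
  set D := symmDiff m.primeFactors (m + h).primeFactors with hD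
  have hDp : ∀ q ∈ D, q.Prime := by
    intro q hq
    rw [hD, Finset.mem_symmDiff] at hq
    rcases hq with hq | hq
    · exact Nat.prime_of_mem_primeFactors hq.1
    · exact Nat.prime_of_mem_primeFactors hq.1
  have hne : D.Nonempty := by
    rw [Finset.nonempty_iff_ne_empty]
    intro h0
    rw [h0, Finset.prod_empty, Finset.prod_empty] at hE
    omega
  refine ⟨hne, ?_⟩
  obtain ⟨s, hs1, hs2⟩ := exists_enum D
  have hcard : 0 < D.card := Finset.card_pos.2 hne
  set k := D.card - 1 with hk
  have hk1 : D.card = k + 1 := by omega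
  have hmem : ∀ i ≤ k, s i ∈ D := by
    intro i hi
    rw [← hs2]
    exact Finset.mem_image_of_mem _ (Finset.mem_range.2 (by omega))
  have hmin : ∀ p ∈ D, s 0 ≤ p := by
    intro p hp
    rw [← hs2, Finset.mem_image] at hp
    obtain ⟨i, hi, rfl⟩ := hp
    rw [Finset.mem_range] at hi
    rcases Nat.eq_zero_or_pos i with h0 | h0
    · rw [h0]
    · exact (hs1 0 i h0 hi).le
  have hinj : Set.InjOn s (Finset.range D.card) := by
    intro i hi j hj hij
    simp only [Finset.coe_range, Set.mem_Iio] at hi hj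
    rcases lt_trichotomy i j with h1 | h1 | h1
    · exact absurd hij (hs1 i j h1 hj).ne
    · exact h1
    · exact absurd hij (hs1 j i h1 hi).ne'
  set A : ℕ → ℕ := fun j => ∏ i ∈ Finset.range (j + 1), an m (s i) with hA
  set B : ℕ → ℕ := fun j => ∏ i ∈ Finset.range (j + 1), bn m (s i) with hB
  have h2 : ∀ i ≤ k, 2 ≤ s i := fun i hi => (hDp _ (hmem i hi)).two_le
  have hApos : ∀ j ≤ k, 0 < A j := fun j hj => Finset.prod_pos fun i hi =>
    an_pos _ _ (h2 i (by have := Finset.mem_range.1 hi; omega))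
  have hBpos : ∀ j ≤ k, 0 < B j := fun j hj => Finset.prod_pos fun i hi =>
    bn_pos _ _ (h2 i (by have := Finset.mem_range.1 hi; omega))
  have hAk : A k = ∏ q ∈ D, an m q := by
    conv_rhs => rw [← hs2]
    rw [Finset.prod_image hinj, hk1]
  have hBk : B k = ∏ q ∈ D, bn m q := by
    conv_rhs => rw [← hs2]
    rw [Finset.prod_image hinj, hk1]
  -- a prime s j does not divide a product of smaller positive factors
  have hnd : ∀ f : ℕ → ℕ, ∀ j ≤ k, (∀ i ≤ j, 0 < f i ∧ f i < s j) →
      ¬ s j ∣ ∏ i ∈ Finset.range (j + 1), f i := by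
    intro f j hj hf hdiv
    obtain ⟨i, hi, hi2⟩ := (Prime.dvd_finsetProd_iff (hDp _ (hmem j hj)).prime f).1 hdiv
    have := hf i (by have := Finset.mem_range.1 hi; omega)
    exact absurd (Nat.le_of_dvd this.1 hi2) (by omega)
  have hAB : ∀ j ≤ k, A j ≠ B j := by
    intro j hj hcon
    have hsj := h2 j hj
    by_cases hd : s j ∣ m
    · have h3 : s j ∣ B j := by
        apply Dvd.dvd.trans _ (Finset.dvd_prod_of_mem _ (Finset.self_mem_range_succ j))
        simp [bn, hd]
      rw [← hcon] at h3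
      refine hnd (fun i => an m (s i)) j hj (fun i hi => ⟨an_pos _ _ (h2 i (by omega)), ?_⟩) h3
      rcases Nat.eq_or_lt_of_le hi with h4 | h4
      · subst h4
        simp only [an, hd, if_true]
        omega
      · exact (an_le _ _).trans_lt (hs1 i j h4 (by omega))
    · have h3 : s j ∣ A j := by
        apply Dvd.dvd.trans _ (Finset.dvd_prod_of_mem _ (Finset.self_mem_range_succ j))
        simp [an, hd]
      rw [hcon] at h3
      refine hnd (fun i => bn m (s i)) j hj (fun i hi => ⟨bn_pos _ _ (h2 i (by omega)), ?_⟩) h3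
      rcases Nat.eq_or_lt_of_le hi with h4 | h4
      · subst h4
        simp only [bn, hd, if_false]
        omega
      · exact (bn_le _ _).trans_lt (hs1 i j h4 (by omega))
  have hgap := gap s A B k h2 (fun i hi => (hs1 i (i + 1) (by omega) (by omega)).le)
    (by simp [hA, hB, an_mul_bn])
    (by
      intro i hi
      simp only [hA, hB]
      rw [Finset.prod_range_succ _ (i + 1), Finset.prod_range_succ _ (i + 1),
        ← an_mul_bn m (s (i + 1))]
      ring)
    (by
      intro i hi
      have ea : Real.log (A (i + 1)) = Real.log (A i) + Real.log (an m (s (i + 1))) := by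
        simp only [hA]
        rw [Finset.prod_range_succ _ (i + 1), Nat.cast_mul, Real.log_mul]
        · exact_mod_cast (hApos i (by omega)).ne'
        · exact_mod_cast (an_pos _ _ (h2 (i + 1) (by omega))).ne'
      have eb : Real.log (B (i + 1)) = Real.log (B i) + Real.log (bn m (s (i + 1))) := by
        simp only [hB]
        rw [Finset.prod_range_succ _ (i + 1), Nat.cast_mul, Real.log_mul]
        · exact_mod_cast (hBpos i (by omega)).ne'
        · exact_mod_cast (bn_pos _ _ (h2 (i + 1) (by omega))).ne'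
      have e : (Real.log (A (i + 1)) - Real.log (B (i + 1))) - (Real.log (A i) - Real.log (B i)) =
          Real.log (an m (s (i + 1))) - Real.log (bn m (s (i + 1))) := by
        rw [ea, eb]
        ring
      rw [e]
      exact abs_log _ _ (h2 (i + 1) (by omega)))
    hAB k le_rfl
  rw [← hAk, ← hBk] at hE
  have hs0 : (2 : ℝ) ≤ s 0 := by exact_mod_cast h2 0 (Nat.zero_le _)
  set G : ℝ := (s 0 : ℝ) ^ (2 ^ k) with hG
  have hG2 : 2 ≤ G := by
    calc (2 : ℝ) ≤ s 0 := hs0
      _ = (s 0 : ℝ) ^ 1 := (pow_one _).symm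
      _ ≤ (s 0 : ℝ) ^ (2 ^ k) := pow_le_pow_right₀ (by linarith) Nat.one_le_two_pow
  have hmR : (0 : ℝ) < m := by exact_mod_cast hm
  have hhR : (0 : ℝ) < h := by exact_mod_cast hh
  have hlogE : Real.log (A k) - Real.log (B k) = Real.log ((m : ℝ) + h) - Real.log m := by
    have h5 : Real.log (((m * A k : ℕ)) : ℝ) = Real.log ((((m + h) * B k : ℕ)) : ℝ) := by
      rw [hE]
    rw [Nat.cast_mul, Nat.cast_mul, Real.log_mul hmR.ne' (by exact_mod_cast (hApos k le_rfl).ne'),
      Real.log_mul (by positivity) (by exact_mod_cast (hBpos k le_rfl).ne')] at h5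
    push_cast at h5
    linarith
  have hmh : Real.log m ≤ Real.log ((m : ℝ) + h) := Real.log_le_log hmR (by linarith)
  rw [hlogE, abs_of_nonneg (by linarith), ← Real.log_div (by linarith) (by linarith),
    ← Real.log_div (by linarith) (by linarith)] at hgap
  have hgap2 := (Real.log_le_log_iff (div_pos (by linarith) (by linarith))
    (div_pos (by linarith) hmR)).1 hgap
  rw [div_le_div_iff₀ (by linarith) hmR] at hgap2
  have hfin : (m : ℝ) + h ≤ h * G := by nlinarith
  have hfin2 : m + h ≤ h * s 0 ^ (2 ^ k) := by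
    have : ((m + h : ℕ) : ℝ) ≤ ((h * s 0 ^ (2 ^ k) : ℕ) : ℝ) := by
      push_cast
      exact hfin
    exact_mod_cast this
  intro p hp
  exact hfin2.trans (Nat.mul_le_mul_left _ (Nat.pow_le_pow_left (hmin p hp) _))

end Pool.Agent.Helper69.TR
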